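import Pool.Agent.H927.MG.SGoals
import Pool.Agent.H927.MG.Iso

/-! # Explicit isomorphisms between members of the family (MP_2eb777_ag) -/

set_option autoImplicit false

open AlgebraicGeometry CategoryTheory Limits Polynomial
open scoped LaurentPolynomial
open LaurentPolynomial (T invert T_add T_zero involutive_invert invert_T invert_C)

namespace Pool.Agent.H196.MG927

open Pool.Agent.W523 Pool.Agent.H927.MG

/-- a diagonal map, reduced set of equations -/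
def diag1 {A B : Type} [CommRing A] [CommRing B] {φ : A →+* B} {d : Dat A} {d' : Dat B}
    (c c' x t : B) (hc : c * c' = 1) (h1 : x ^ 2 * d'.l = c * φ d.l) (h2 : t ^ 2 * d'.m = c * φ d.m)
    (h3 : c * d'.V = φ d.V) (h4 : c ^ 2 * d'.T = x * t * φ d.T) : Mor φ d d' :=
  Mor.diag c x t h1 h2 h3
    (by linear_combination (c' * x * d'.l) * h4 + (c' * t * φ d.T) * h1 +
          (φ d.l * φ d.T * t - c * x * d'.l * d'.T) * hc)
    (by linear_combination (c' * t * d'.m) * h4 + (c' * x * φ d.T) * h2 +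
          (φ d.m * φ d.T * x - c * t * d'.m * d'.T) * hc)
    (by linear_combination (c' ^ 2 * x * t * d'.l * d'.m) * h4 +
          (c' ^ 2 * t ^ 2 * d'.m * φ d.T) * h1 + (c' ^ 2 * c * φ d.l * φ d.T) * h2 -
          ((x * t * (d'.l * d'.m * d'.T) - φ d.l * φ d.m * φ d.T) * (c * c' + 1)) * hc)
    (by linear_combination (c' ^ 2 * d'.l * d'.m * (c ^ 2 * d'.T + x * t * φ d.T)) * h4 +
          (c' ^ 2 * t ^ 2 * d'.m * φ d.T ^ 2) * h1 + (c' ^ 2 * c * φ d.l * φ d.T ^ 2) * h2 -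
          ((c * c * (d'.l * d'.m * d'.T ^ 2) - φ d.l * φ d.m * φ d.T ^ 2) * (c * c' + 1)) * hc)

/-- a swap `v ↦ - v`, `W₀ ↦ y W₁`, `W₁ ↦ z W₀` -/
def swap1 {A B : Type} [CommRing A] [CommRing B] {φ : A →+* B} {d : Dat A} {d' : Dat B}
    (y z : B) (hyz : y * z = 1) (h1 : z ^ 2 * d'.l = φ d.m) (h2 : d'.m = z ^ 2 * φ d.l)
    (h3 : d'.V = φ d.V) (h4 : d'.T = φ d.T) : Mor φ d d' where
  c := -1
  x := 0
  y := y
  z := z
  t := 0
  e0 := by
    simp only [Dat.f, map_sub, map_mul, map_pow, ← h3, ← h4, ← h1, h2]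
    ring
  e1 := by rw [h2]; linear_combination (-(y * z + 1) * φ d.l) * hyz
  e2 := by rw [h2, h3]; linear_combination ((y * z + 1) * φ d.l * φ d.V) * hyz
  e3 := by linear_combination h1
  e4 := by rw [← h1, h3]; ring
  e5 := by ring
  e6 := by
    rw [h2, h4, ← h1]
    linear_combination (z ^ 2 * d'.l * φ d.l * φ d.T) * hyz
  e7 := by
    rw [h2, h4]
    linear_combination (-(z * φ d.l * φ d.T)) * hyz
  e8 := by rw [h3]; ring
  e9 := by rw [h3]; ring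
  e10 := by
    rw [h4, ← h1]
    linear_combination (-(z * d'.l * φ d.T)) * hyz

variable {R : Type} [CommRing R]

/-- diagonal isomorphisms between the data -/
theorem iso_diag (u ξ τ : Rˣ) (l0 l1 m0 m1 V0 V1 V2 V3 T0 T1 T2 : R)
    (l0' l1' m0' m1' V0' V1' V2' V3' T0' T1' T2' : R)
    (hl0 : (ξ : R) ^ 2 * l0' = l0) (hl1 : (ξ : R) ^ 2 * l1' = u * l1)
    (hm0 : (τ : R) ^ 2 * m0' = m0) (hm1 : (τ : R) ^ 2 * m1' = u * m1)
    (hV0 : V0' = V0) (hV1 : V1' = u * V1) (hV2 : V2' = u ^ 2 * V2) (hV3 : V3' = u ^ 3 * V3)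
    (hT0 : T0' = ξ * τ * T0) (hT1 : T1' = ξ * τ * (u * T1)) (hT2 : T2' = ξ * τ * (u ^ 2 * T2)) :
    GIso (hgd l0 l1 m0 m1 V0 V1 V2 V3 T0 T1 T2)
      (hgd l0' l1' m0' m1' V0' V1' V2' V3' T0' T1' T2') := by
  have cl0 : (C (ξ : R)) ^ 2 * C l0' = C l0 := by rw [← map_pow, ← map_mul, hl0]
  have cl1 : (C (ξ : R)) ^ 2 * C l1' = C (u : R) * C l1 := by
    rw [← map_pow, ← map_mul, hl1, map_mul]
  have cm0 : (C (τ : R)) ^ 2 * C m0' = C m0 := by rw [← map_pow, ← map_mul, hm0]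
  have cm1 : (C (τ : R)) ^ 2 * C m1' = C (u : R) * C m1 := by
    rw [← map_pow, ← map_mul, hm1, map_mul]
  subst hV0 hV1 hV2 hV3 hT0 hT1 hT2
  let M1 : Mor (scl u) (hgd l0 l1 m0 m1 V0' V1 V2 V3 T0 T1 T2).d1
      (hgd l0' l1' m0' m1' V0' (u * V1) (u ^ 2 * V2) (u ^ 3 * V3) (ξ * τ * T0) (ξ * τ * (u * T1))
        (ξ * τ * (u ^ 2 * T2))).d1 :=
    diag1 1 1 (C (ξ : R)) (C (τ : R)) (one_mul 1)
      (by
        simp only [hgd, diagGD, map_add, map_mul, scl_C, scl_X]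
        linear_combination cl0 + X * cl1)
      (by
        simp only [hgd, diagGD, map_add, map_mul, scl_C, scl_X]
        linear_combination cm0 + X * cm1)
      (by
        simp only [hgd, diagGD, map_add, map_mul, map_pow, scl_C, scl_X]
        ring)
      (by
        simp only [hgd, diagGD, map_add, map_mul, map_pow, scl_C, scl_X]
        ring)
  have hUW : (C (u : R) : R[X]) * C ((u⁻¹ : Rˣ) : R) = 1 := by rw [← map_mul]; simp
  let M2 : Mor (scl u⁻¹) (hgd l0 l1 m0 m1 V0' V1 V2 V3 T0 T1 T2).d2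
      (hgd l0' l1' m0' m1' V0' (u * V1) (u ^ 2 * V2) (u ^ 3 * V3) (ξ * τ * T0) (ξ * τ * (u * T1))
        (ξ * τ * (u ^ 2 * T2))).d2 :=
    diag1 (C ((u⁻¹ : Rˣ) : R) ^ 3) (C (u : R) ^ 3) (C ((u⁻¹ : Rˣ) : R) ^ 2 * C (ξ : R))
      (C ((u⁻¹ : Rˣ) : R) ^ 2 * C (τ : R))
      (by rw [← mul_pow, mul_comm, hUW, one_pow])
      (by
        simp only [hgd, diagGD, map_add, map_mul, scl_C, scl_X]
        linear_combination (C ((u⁻¹ : Rˣ) : R) ^ 4) * cl1 + (C ((u⁻¹ : Rˣ) : R) ^ 4) * X * cl0 +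
          (C ((u⁻¹ : Rˣ) : R) ^ 3 * C l1) * hUW)
      (by
        simp only [hgd, diagGD, map_add, map_mul, scl_C, scl_X]
        linear_combination (C ((u⁻¹ : Rˣ) : R) ^ 4) * cm1 + (C ((u⁻¹ : Rˣ) : R) ^ 4) * X * cm0 +
          (C ((u⁻¹ : Rˣ) : R) ^ 3 * C m1) * hUW)
      (by
        simp only [hgd, diagGD, map_add, map_mul, map_pow, scl_C, scl_X]
        linear_combination (C V3 * ((C (u : R) * C ((u⁻¹ : Rˣ) : R)) ^ 2 +
          C (u : R) * C ((u⁻¹ : Rˣ) : R) + 1) + C V2 * C ((u⁻¹ : Rˣ) : R) * X *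
          (C (u : R) * C ((u⁻¹ : Rˣ) : R) + 1) + C V1 * C ((u⁻¹ : Rˣ) : R) ^ 2 * X ^ 2) * hUW)
      (by
        simp only [hgd, diagGD, map_add, map_mul, map_pow, scl_C, scl_X]
        linear_combination (C ((u⁻¹ : Rˣ) : R) ^ 4 * C (ξ : R) * C (τ : R) *
          (C T2 * (C (u : R) * C ((u⁻¹ : Rˣ) : R) + 1) + C T1 * C ((u⁻¹ : Rˣ) : R) * X)) * hUW)
  have hu : ∀ v : Rˣ, IsUnit (C (v : R) : R[X]) := fun v => v.isUnit.map C
  have hU3 : (sclL u (T (-3)) : R[T;T⁻¹]) = LaurentPolynomial.C ((u⁻¹ : Rˣ) : R) ^ 3 * T (-3) := by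
    have : (T (-3) : R[T;T⁻¹]) = T (-1) ^ 3 := by rw [LaurentPolynomial.T_pow]; norm_num
    rw [this, map_pow, sclL_Tm1, mul_pow]
  have hU2 : (sclL u (T (-2)) : R[T;T⁻¹]) = LaurentPolynomial.C ((u⁻¹ : Rˣ) : R) ^ 2 * T (-2) := by
    have : (T (-2) : R[T;T⁻¹]) = T (-1) ^ 2 := by rw [LaurentPolynomial.T_pow]; norm_num
    rw [this, map_pow, sclL_Tm1, mul_pow]
  refine GIso.of_mor u M1 M2 isUnit_one ?_ ((hu u⁻¹).pow 3) ?_ ?_ ?_ ?_ ?_ ?_
  · change IsUnit ((C (ξ : R) : R[X]) * C (τ : R) - 0 * 0)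
    rw [mul_zero, sub_zero]
    exact (hu ξ).mul (hu τ)
  · change IsUnit (((C ((u⁻¹ : Rˣ) : R) : R[X]) ^ 2 * C (ξ : R)) *
      (C ((u⁻¹ : Rˣ) : R) ^ 2 * C (τ : R)) - 0 * 0)
    rw [mul_zero, sub_zero]
    exact (((hu _).pow 2).mul (hu ξ)).mul (((hu _).pow 2).mul (hu τ))
  · change sclL u (T (-3)) * toLaurent 1 = inv R (toLaurent (C ((u⁻¹ : Rˣ) : R) ^ 3)) * T (-3)
    rw [hU3]
    simp [inv_apply]
  · change sclL u (T (-2)) * toLaurent (C (ξ : R)) + sclL u 0 * toLaurent 0 =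
      inv R (toLaurent (C ((u⁻¹ : Rˣ) : R) ^ 2 * C (ξ : R))) * T (-2) + inv R (toLaurent 0) * 0
    rw [hU2]
    simp [inv_apply]
    ring
  · change sclL u (T (-2)) * toLaurent 0 + sclL u 0 * toLaurent (C (τ : R)) =
      inv R (toLaurent (C ((u⁻¹ : Rˣ) : R) ^ 2 * C (ξ : R))) * 0 + inv R (toLaurent 0) * T (-2)
    simp
  · change sclL u 0 * toLaurent (C (ξ : R)) + sclL u (T (-2)) * toLaurent 0 =
      inv R (toLaurent 0) * T (-2) + inv R (toLaurent (C ((u⁻¹ : Rˣ) : R) ^ 2 * C (τ : R))) * 0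
    simp
  · change sclL u 0 * toLaurent 0 + sclL u (T (-2)) * toLaurent (C (τ : R)) =
      inv R (toLaurent 0) * 0 + inv R (toLaurent (C ((u⁻¹ : Rˣ) : R) ^ 2 * C (τ : R))) * T (-2)
    rw [hU2]
    simp [inv_apply]
    ring

/-- isomorphisms swapping `l` and `m` -/
theorem iso_swap (θ : Rˣ) (l0 l1 m0 m1 V0 V1 V2 V3 T0 T1 T2 l0' l1' m0' m1' : R)
    (hl0 : (θ : R) ^ 2 * l0' = m0) (hl1 : (θ : R) ^ 2 * l1' = m1)
    (hm0 : m0' = (θ : R) ^ 2 * l0) (hm1 : m1' = (θ : R) ^ 2 * l1) :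
    GIso (hgd l0 l1 m0 m1 V0 V1 V2 V3 T0 T1 T2)
      (hgd l0' l1' m0' m1' V0 V1 V2 V3 T0 T1 T2) := by
  subst hl0 hl1 hm0 hm1
  have hYZ : (C ((θ⁻¹ : Rˣ) : R) : R[X]) * C (θ : R) = 1 := by rw [← map_mul]; simp
  let M1 : Mor (scl 1) (hgd l0 l1 (θ ^ 2 * l0') (θ ^ 2 * l1') V0 V1 V2 V3 T0 T1 T2).d1
      (hgd l0' l1' (θ ^ 2 * l0) (θ ^ 2 * l1) V0 V1 V2 V3 T0 T1 T2).d1 :=
    swap1 (C ((θ⁻¹ : Rˣ) : R)) (C (θ : R)) hYZ
      (by
        simp only [hgd, diagGD, map_add, map_mul, map_pow, scl_C, scl_X, Units.val_one, map_one]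
        ring)
      (by
        simp only [hgd, diagGD, map_add, map_mul, map_pow, scl_C, scl_X, Units.val_one, map_one]
        ring)
      (by
        simp only [hgd, diagGD, map_add, map_mul, map_pow, scl_C, scl_X, Units.val_one, map_one,
          one_mul])
      (by
        simp only [hgd, diagGD, map_add, map_mul, map_pow, scl_C, scl_X, Units.val_one, map_one,
          one_mul])
  let M2 : Mor (scl 1⁻¹) (hgd l0 l1 (θ ^ 2 * l0') (θ ^ 2 * l1') V0 V1 V2 V3 T0 T1 T2).d2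
      (hgd l0' l1' (θ ^ 2 * l0) (θ ^ 2 * l1) V0 V1 V2 V3 T0 T1 T2).d2 :=
    swap1 (C ((θ⁻¹ : Rˣ) : R)) (C (θ : R)) hYZ
      (by
        simp only [hgd, diagGD, map_add, map_mul, map_pow, scl_C, scl_X, inv_one, Units.val_one,
          map_one]
        ring)
      (by
        simp only [hgd, diagGD, map_add, map_mul, map_pow, scl_C, scl_X, inv_one, Units.val_one,
          map_one]
        ring)
      (by
        simp only [hgd, diagGD, map_add, map_mul, map_pow, scl_C, scl_X, inv_one, Units.val_one,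
          map_one, one_mul])
      (by
        simp only [hgd, diagGD, map_add, map_mul, map_pow, scl_C, scl_X, inv_one, Units.val_one,
          map_one, one_mul])
  have hdet : IsUnit ((0 : R[X]) * 0 - C ((θ⁻¹ : Rˣ) : R) * C (θ : R)) := by
    rw [hYZ, mul_zero, zero_sub]
    exact isUnit_one.neg
  have h3 : (sclL 1 (T (-3)) : R[T;T⁻¹]) = T (-3) := by
    have : (T (-3) : R[T;T⁻¹]) = T (-1) ^ 3 := by rw [LaurentPolynomial.T_pow]; norm_num
    rw [this, map_pow, sclL_Tm1]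
    simp
  have h2 : (sclL 1 (T (-2)) : R[T;T⁻¹]) = T (-2) := by
    have : (T (-2) : R[T;T⁻¹]) = T (-1) ^ 2 := by rw [LaurentPolynomial.T_pow]; norm_num
    rw [this, map_pow, sclL_Tm1]
    simp
  refine GIso.of_mor 1 M1 M2 isUnit_one.neg hdet isUnit_one.neg hdet ?_ ?_ ?_ ?_ ?_
  · change sclL 1 (T (-3)) * toLaurent (-1) = inv R (toLaurent (-1)) * T (-3)
    rw [h3]
    simp
  · change sclL 1 (T (-2)) * toLaurent 0 + sclL 1 0 * toLaurent (C (θ : R)) =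
      inv R (toLaurent 0) * T (-2) + inv R (toLaurent (C ((θ⁻¹ : Rˣ) : R))) * 0
    simp
  · change sclL 1 (T (-2)) * toLaurent (C ((θ⁻¹ : Rˣ) : R)) + sclL 1 0 * toLaurent 0 =
      inv R (toLaurent 0) * 0 + inv R (toLaurent (C ((θ⁻¹ : Rˣ) : R))) * T (-2)
    rw [h2]
    simp [inv_apply]
  · change sclL 1 0 * toLaurent 0 + sclL 1 (T (-2)) * toLaurent (C (θ : R)) =
      inv R (toLaurent (C (θ : R))) * T (-2) + inv R (toLaurent 0) * 0
    rw [h2]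
    simp [inv_apply]
  · change sclL 1 0 * toLaurent (C ((θ⁻¹ : Rˣ) : R)) + sclL 1 (T (-2)) * toLaurent 0 =
      inv R (toLaurent (C (θ : R))) * 0 + inv R (toLaurent 0) * T (-2)
    simp

section field

variable {Ω : Type} [Field Ω]

theorem w_scale (P P' : Par Ω) (c : Ω) (hU' : hU P'.σ P'.z = c ^ 6 * hU P.σ P.z)
    (hz : P'.z = c * P.z) : c ^ 12 * P'.w = P.w := by
  have h1 := P'.hw
  have h2 := P.hw
  rw [hU', hz] at h1
  linear_combination P.w * h1 - c ^ 12 * P'.w * h2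

theorem e_scale (P P' : Par Ω) (c : Ω) (hU' : hU P'.σ P'.z = c ^ 6 * hU P.σ P.z)
    (hz : P'.z = c * P.z) (hk : P'.k = c ^ 12 * P.k) : c ^ 12 * P'.e = P.e := by
  have h1 := P'.he
  have h2 := P.he
  unfold hn at h1 h2
  rw [hU', hz, hk] at h1
  linear_combination P.e * h1 - c ^ 12 * P'.e * h2

/-- moves (A), (B), (D) -/
theorem iso_scale (P P' : Par Ω) (c ζ η : Ω) (hc : c ≠ 0) (hζ : ζ ^ 3 = 1) (hη : η ^ 4 = 1)
    (hσ : P'.σ = η ^ 2 * c ^ 3 * P.σ) (hz : P'.z = c * P.z) (hl : P'.lam = ζ * c ^ 2 * P.lam)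
    (hk : P'.k = c ^ 12 * P.k) : GIso P.gd P'.gd := by
  have hζ0 : ζ ≠ 0 := by
    rintro rfl
    norm_num at hζ
  have hη0 : η ≠ 0 := by
    rintro rfl
    norm_num at hη
  have hU' : hU P'.σ P'.z = c ^ 6 * hU P.σ P.z := by
    unfold hU
    rw [hσ, hz]
    linear_combination (c ^ 6 * P.σ ^ 2) * hη
  have hw := w_scale P P' c hU' hz
  have he := e_scale P P' c hU' hz hk
  have hn' : hn P'.σ P'.z P'.k = c ^ 12 * hn P.σ P.z P.k := by
    unfold hn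
    rw [hU', hz, hk]
    ring
  unfold Par.gd
  rw [hn', hU', hσ, hz, hl, ← hw, ← he]
  refine iso_diag (Units.mk0 (η ^ 2 * ζ ^ 2) (by positivity)) (Units.mk0 (ζ * η) (by positivity))
    (Units.mk0 (c ^ 4 * η ^ 3) (by positivity)) _ _ _ _ _ _ _ _ _ _ _ _ _ _ _ _ _ _ _ _ _ _
    ?_ ?_ ?_ ?_ ?_ ?_ ?_ ?_ ?_ ?_ ?_
  all_goals try simp only [Units.val_mk0]
  all_goals generalize hn P.σ P.z P.k = n
  all_goals generalize hU P.σ P.z = U
  · linear_combination ((-4 * P.σ * P.lam * P.z * (U + 8 * P.z ^ 6) * c ^ 12 * P'.e) * η ^ 4) * hζ +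
      (-4 * P.σ * P.lam * P.z * (U + 8 * P.z ^ 6) * c ^ 12 * P'.e) * hη
  · ring
  · linear_combination ((-2 * P.σ * P.z * n * c ^ 24 * P'.w ^ 2) * (η ^ 4 + 1)) * hη
  · linear_combination ((P.lam ^ 2 * (U + 8 * P.z ^ 6) ^ 2 * c ^ 24 * P'.w ^ 2) * η ^ 2 * ζ ^ 2) * hη
  · ring
  · ring
  · linear_combination (-((-18 * P.lam ^ 4 * P.z ^ 4 * c ^ 12 * P'.w) * ζ ^ 4)) * hη
  · linear_combination (-((4 * P.σ * P.z ^ 3 * (U + 2 * P.z ^ 6) * c ^ 12 * P'.w) * η ^ 2 *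
      ζ ^ 6)) * hη - ((4 * P.σ * P.z ^ 3 * (U + 2 * P.z ^ 6) * c ^ 12 * P'.w) * η ^ 2 *
      (ζ ^ 3 + 1)) * hζ
  · linear_combination (-(2 * ζ * c ^ 4 * P.lam * P.z ^ 2)) * hη
  · linear_combination (-((-2 * P.σ * P.z * c ^ 4) * η ^ 2 * η ^ 4)) * hζ -
      ((-2 * P.σ * P.z * c ^ 4) * η ^ 2) * hη
  · linear_combination (-((c ^ 4 * P.lam ^ 2) * ζ ^ 2 * η ^ 8)) * hζ -
      ((c ^ 4 * P.lam ^ 2) * ζ ^ 2 * (η ^ 4 + 1)) * hη

/-- move (C) -/
theorem iso_flip (P : Par Ω) (h0 : (2 : Ω) ≠ 0) (hU0 : hU P.σ P.z ≠ 0)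
    (h8 : hU P.σ P.z + 8 * P.z ^ 6 ≠ 0) : ∃ Q : Par Ω, Q.σ = P.σ ∧ Q.z = P.z ∧ Q.lam = P.lam ∧
      Q.k = -P.k ∧ GIso P.gd Q.gd := by
  have hnn := P.nn
  have hn0 : hn P.σ P.z (-P.k) ≠ 0 := by
    intro h
    rw [h, mul_zero] at hnn
    exact (mul_ne_zero (mul_ne_zero h0 hU0) (pow_ne_zero 3 h8)) hnn.symm
  obtain ⟨Q, r1, r2, r3, r5, r4⟩ : ∃ Q : Par Ω, Q.σ = P.σ ∧ Q.z = P.z ∧ Q.lam = P.lam ∧
      Q.k = -P.k ∧ Q.w = P.w :=
    ⟨{ σ := P.σ, z := P.z, lam := P.lam, k := -P.k, w := P.w, e := (hn P.σ P.z (-P.k))⁻¹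
       hlam := P.hlam
       hk := by rw [neg_sq]; exact P.hk
       hw := P.hw
       he := mul_inv_cancel₀ hn0 }, rfl, rfl, rfl, rfl, rfl⟩
  refine ⟨Q, r1, r2, r3, r5, ?_⟩
  have hlam0 : P.lam ≠ 0 := by
    intro h
    apply hU0
    rw [← P.hlam, h]
    ring
  have hw0 : P.w ≠ 0 := by
    intro h
    have := P.hw
    rw [h, mul_zero] at this
    exact zero_ne_one this
  have hns := P.ns
  have hns' := Q.ns
  have hlam := P.hlam
  unfold Par.gd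
  rw [r1, r2, r5, neg_neg] at hns'
  rw [r1, r2, r3, r4, r5]
  refine iso_swap (Units.mk0 (P.lam * (hU P.σ P.z + 8 * P.z ^ 6) * P.w)
    (mul_ne_zero (mul_ne_zero hlam0 h8) hw0)) _ _ _ _ _ _ _ _ _ _ _ _ _ _ _ ?_ ?_ ?_ ?_
  all_goals simp only [Units.val_mk0]
  all_goals clear hnn hn0 hlam0 hw0 h8 hU0 r1 r2 r3 r4 r5
  all_goals generalize hn P.σ P.z P.k = n at *
  all_goals generalize hn P.σ P.z (-P.k) = n' at *
  all_goals generalize hU P.σ P.z = U at *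
  · linear_combination (-4 * P.σ * P.z * (U + 8 * P.z ^ 6) ^ 3 * P.w ^ 2 * Q.e) * hlam -
      (2 * P.σ * P.z * P.w ^ 2) * hns'
  · ring
  · linear_combination (4 * P.σ * P.z * (U + 8 * P.z ^ 6) ^ 3 * P.w ^ 2 * P.e) * hlam +
      (2 * P.σ * P.z * P.w ^ 2) * hns
  · ring

end field

theorem iso_class : S_iso := by
  intro Ω _ _ _ P P' hz hz' _ hU0 h8 hu
  have h2 : (2 : Ω) ≠ 0 := two_ne_zero
  set c : Ω := P'.z / P.z with hc
  have hc0 : c ≠ 0 := div_ne_zero hz' hz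
  have hzc : P'.z = c * P.z := by rw [hc]; field_simp
  have hUc : hU P'.σ P'.z = c ^ 6 * hU P.σ P.z := by
    rw [hzc] at hu ⊢
    have : (hU P'.σ (c * P.z) - c ^ 6 * hU P.σ P.z) * P.z ^ 6 = 0 := by
      linear_combination -hu
    rcases mul_eq_zero.1 this with h | h
    · linear_combination h
    · exact absurd h (pow_ne_zero 6 hz)
  have hlam0 : P.lam ≠ 0 := by
    intro h
    apply hU0
    rw [← P.hlam, h]
    ring
  -- the cube root of unity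
  set ζ : Ω := P'.lam / (c ^ 2 * P.lam) with hζ
  have hlc : P'.lam = ζ * c ^ 2 * P.lam := by rw [hζ]; field_simp
  have hζ3 : ζ ^ 3 = 1 := by
    have h1 := P'.hlam
    rw [hUc, ← P.hlam, hlc] at h1
    have h3 : (ζ ^ 3 - 1) * (c ^ 6 * P.lam ^ 3) = 0 := by linear_combination h1
    rcases mul_eq_zero.1 h3 with h | h
    · linear_combination h
    · exact absurd h (mul_ne_zero (pow_ne_zero 6 hc0) (pow_ne_zero 3 hlam0))
  -- the sign of σ
  have hσ : ∃ η : Ω, η ^ 4 = 1 ∧ P'.σ = η ^ 2 * c ^ 3 * P.σ := by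
    have h1 : (P'.σ - c ^ 3 * P.σ) * (P'.σ + c ^ 3 * P.σ) = 0 := by
      have h3 := hUc
      unfold hU at h3
      rw [hzc] at h3
      linear_combination h3
    rcases mul_eq_zero.1 h1 with h | h
    · exact ⟨1, by ring, by linear_combination h⟩
    · obtain ⟨i, hi⟩ := IsAlgClosed.exists_pow_nat_eq (-1 : Ω) (n := 2) (by norm_num)
      refine ⟨i, ?_, ?_⟩
      · linear_combination (i ^ 2 - 1) * hi
      · linear_combination h - (c ^ 3 * P.σ) * hi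
  obtain ⟨η, hη, hσ⟩ := hσ
  -- the sign of k
  have hk : P'.k = c ^ 12 * P.k ∨ P'.k = c ^ 12 * (-P.k) := by
    have h1 : (P'.k - c ^ 12 * P.k) * (P'.k + c ^ 12 * P.k) = 0 := by
      have h3 := P'.hk
      have h4 := P.hk
      rw [hUc, hzc] at h3
      linear_combination h3 - c ^ 24 * h4
    rcases mul_eq_zero.1 h1 with h | h
    · left; linear_combination h
    · right; linear_combination h
  rcases hk with hk | hk
  · exact iso_scale P P' c ζ η hc0 hζ3 hη hσ hzc hlc hk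
  · obtain ⟨Q, q1, q2, q3, q4, hQ⟩ := iso_flip P h2 hU0 h8
    refine hQ.trans (iso_scale Q P' c ζ η hc0 hζ3 hη ?_ ?_ ?_ ?_)
    · rw [q1]; exact hσ
    · rw [q2]; exact hzc
    · rw [q3]; exact hlc
    · rw [q4]; exact hk

end Pool.Agent.H196.MG927
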